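import Mathlib
import Pool.Agent.W402.QC
import Pool.Agent.Helper270.QD

set_option linter.unusedSectionVars false

namespace W402Q

open H270Q Finset

/-- From a finite group `G` with a homomorphism as in `infinite_Q`: finite quotients of `Q(n,m)`
with arbitrarily large index. -/
theorem exists_large {p : ℕ} [Fact (Nat.Prime p)] {G : Type*} [Group G] [Finite G] {n k m : ℕ} (hn : 2 ≤ n)
    {c : G} (μ : FreeGroup (Fin n) →* G)
    (hc : ∀ g, c * g = g * c) (hcp : c ^ p = 1) (hc1 : c ≠ 1)
    (H : ∀ g, ab n p g ≠ 1 → ∃ s : ℕ, ¬ p ∣ s ∧ μ g ^ (p ^ k) = c ^ s)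
    (hm : p ^ (k + 1) ∣ m) (B : ℕ) :
    ∃ N : Subgroup (Q n m hn), N.Normal ∧ N.FiniteIndex ∧ B < N.index := by
  classical
  have hp : p.Prime := Fact.out
  obtain ⟨q, hq, hBq, hq1⟩ := Nat.exists_prime_gt_modEq_one (k := p) B hp.ne_zero
  have : Fact q.Prime := ⟨hq⟩
  have hd : p ∣ q - 1 := (Nat.modEq_iff_dvd' hq.one_lt.le).1 hq1.symm
  -- a primitive root
  obtain ⟨ω, hω⟩ : ∃ ω : ZMod q, IsPrimitiveRoot ω p := by
    have hcard : p ∣ Fintype.card (ZMod q)ˣ := by rw [ZMod.card_units]; exact hd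
    obtain ⟨u, hu⟩ := exists_prime_orderOf_dvd_card p hcard
    refine ⟨u, ?_⟩
    have := IsPrimitiveRoot.orderOf (u : ZMod q)
    rw [orderOf_units, hu] at this
    exact this
  obtain ⟨w, hw⟩ := conj_pow_mem (K := ZMod q) hn μ hc hcp hc1 hω H
  let KR := Krho (K := ZMod q) hn μ c ω p
  have hKn : KR.Normal := Krho_normal hn c ω p μ
  have hKf : KR.FiniteIndex := Krho_finiteIndex hn μ
  have hle : Subgroup.normalClosure {(nielsen n hn) ^ m} ≤ KR := by
    apply Subgroup.normalClosure_le_normal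
    intro y hy
    rw [Set.mem_singleton_iff] at hy
    rw [hy]
    exact nielsen_mem hn μ hc hcp hω H hm
  have hsurj : Function.Surjective
      (QuotientGroup.mk' (Subgroup.normalClosure {(nielsen n hn) ^ m})) :=
    QuotientGroup.mk'_surjective _
  let N : Subgroup (Q n m hn) := KR.map (QuotientGroup.mk' (Subgroup.normalClosure {(nielsen n hn) ^ m}))
  have hcomap : N.comap (QuotientGroup.mk' (Subgroup.normalClosure {(nielsen n hn) ^ m})) = KR := by
    rw [Subgroup.comap_map_eq, QuotientGroup.ker_mk', sup_eq_left]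
    exact hle
  have hidx : N.index = KR.index := by
    rw [← hcomap, Subgroup.index_comap_of_surjective _ hsurj]
  refine ⟨N, hKn.map _ hsurj, ⟨by rw [hidx]; exact hKf.index_ne_zero⟩, ?_⟩
  rw [hidx]
  have hx : MulAut.conj (w ^ KR.index) ∈ KR := by
    rw [map_pow]
    exact Subgroup.pow_index_mem KR _
  have h0 : ((KR.index : ℕ) : ZMod q) = 0 := hw _ hx
  rw [ZMod.natCast_eq_zero_iff] at h0
  exact lt_of_lt_of_le hBq (Nat.le_of_dvd (Nat.pos_of_ne_zero hKf.index_ne_zero) h0)

theorem infinite_of_large {A : Type*} [Group A]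
    (h : ∀ B : ℕ, ∃ N : Subgroup A, N.Normal ∧ N.FiniteIndex ∧ B < N.index) :
    Set.Infinite {N : Subgroup A | N.Normal ∧ N.FiniteIndex} := by
  intro hfin
  obtain ⟨B, hB⟩ := (hfin.image Subgroup.index).bddAbove
  obtain ⟨N, h1, h2, h3⟩ := h B
  exact absurd (hB ⟨N, ⟨h1, h2⟩, rfl⟩) (not_le.2 h3)

theorem prime_power_case' (p k n m : ℕ) (hp : p.Prime) (hn : 2 ≤ n) (hnk : n ≤ p ^ k)
    (hm : p ^ (k + 1) ∣ m) :
    Set.Infinite {N : Subgroup (Q n m hn) | N.Normal ∧ N.FiniteIndex} := by
  have : Fact p.Prime := ⟨hp⟩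
  have hfr : Module.finrank (ZMod p) (KK p k) = p ^ k := GaloisField.finrank p (dpos p k).ne'
  let bs : Module.Basis (Fin (p ^ k)) (ZMod p) (KK p k) := Module.finBasisOfFinrankEq _ _ hfr
  let x : Fin n → KK p k := fun i => bs (Fin.castLE hnk i)
  have hli : LinearIndependent (ZMod p) x :=
    bs.linearIndependent.comp _ (Fin.castLE_injective hnk)
  have hell : ∀ v : Fin n → ZMod p, v ≠ 0 → ell x v ≠ 0 := by
    intro v hv h
    apply hv
    funext i
    exact Fintype.linearIndependent_iff.1 hli v h i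
  let G : Subgroup (MM p k)ˣ := Subgroup.centralizer {c0 p k}
  have hG : ∀ w, mu0 x w ∈ G := by
    intro w
    rw [Subgroup.mem_centralizer_iff]
    intro h hh
    rw [Set.mem_singleton_iff] at hh
    rw [hh]
    exact mu0_comm x w
  have hcG : c0 p k ∈ G := by
    rw [Subgroup.mem_centralizer_iff]
    intro h hh
    rw [Set.mem_singleton_iff] at hh
    rw [hh]
  let μ : FreeGroup (Fin n) →* G := (mu0 x).codRestrict G hG
  let c : G := ⟨c0 p k, hcG⟩
  have hc : ∀ g : G, c * g = g * c := by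
    intro g
    apply Subtype.ext
    exact Subgroup.mem_centralizer_iff.1 g.2 _ (Set.mem_singleton _)
  have hcp : c ^ p = 1 := by
    apply Subtype.ext
    apply Units.ext
    change ((c0 p k ^ p : (MM p k)ˣ) : MM p k) = 1
    rw [c0_pow, CharP.cast_eq_zero]
    have : corner (p ^ k) (KK p k) (0 : KK p k) = 0 := by ext i j; simp [corner]
    rw [this, add_zero]
  have hc1 : c ≠ 1 := by
    intro h
    have h1 : c0 p k = 1 := congrArg Subtype.val h
    have h2 : (1 : MM p k) + corner (p ^ k) (KK p k) 1 = 1 := by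
      rw [← c0_val, h1]; rfl
    have h3 : corner (p ^ k) (KK p k) 1 = corner (p ^ k) (KK p k) 0 := by
      have : corner (p ^ k) (KK p k) (0 : KK p k) = 0 := by ext i j; simp [corner]
      rw [this]
      simpa using h2
    exact one_ne_zero (corner_injective h3)
  have hfinK : Finite (KK p k) := inferInstance
  have hfinM : Finite (MM p k) := inferInstance
  have hfinU : Finite (MM p k)ˣ := inferInstance
  have hfinG : Finite G := inferInstance
  refine infinite_of_large (fun B => exists_large (G := G) hn (c := c) (p := p) (k := k) μ hc hcp hc1 ?_ hm B)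
  intro g hg
  obtain ⟨s, hs, e⟩ := mu0_pow x g hfr (hell _ (fun h => hg (by
    apply Multiplicative.toAdd.injective
    rw [h]; rfl)))
  refine ⟨s, hs, ?_⟩
  apply Subtype.ext
  exact e

end W402Q
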