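import Pool.Agent.W217.BE.Stm

/-! Part GRCUT of project BE. -/

set_option autoImplicit false

namespace Pool.Agent.W402.BEGRCUT

open Pool.Agent.W217.BE
open MvPolynomial (rename C)

section Proj

variable {A M : Type} [CommRing A] [AddCommGroup M] [Module A M] {k : ℕ}
  {ℳ : (Fin (k + 1) → ℤ) → Submodule A M}

/-- two linear maps agreeing on all pieces are equal -/
lemma ext_pieces (hI : DirectSum.IsInternal ℳ) {P : Type} [AddCommGroup P]
    (f g : M →+ P) (h : ∀ a x, x ∈ ℳ a → f x = g x) (x : M) : f x = g x := by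
  have hx : x ∈ ⨆ a, ℳ a := by
    rw [hI.submodule_iSup_eq_top]; trivial
  induction hx using Submodule.iSup_induction' with
  | mem a x hx => exact h a x hx
  | zero => simp
  | add x y _ _ hx hy => rw [map_add, map_add, hx, hy]

lemma exists_pr (hI : DirectSum.IsInternal ℳ) (t : ℤ) :
    ∃ p : M →ₗ[A] M, ∀ a x, x ∈ ℳ a → p x = if a 0 = t then x else 0 := by
  classical
  letI := hI.chooseDecomposition
  refine ⟨(DirectSum.toModule A _ M
    (fun a => if a 0 = t then (ℳ a).subtype else 0)).comp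
      (DirectSum.decomposeLinearEquiv ℳ).toLinearMap, ?_⟩
  intro a x hx
  have h1 : DirectSum.decomposeLinearEquiv ℳ x = DirectSum.lof A _ (fun i => ℳ i) a ⟨x, hx⟩ := by
    exact DirectSum.decompose_of_mem ℳ hx
  rw [LinearMap.comp_apply]
  change (DirectSum.toModule A _ M _) (DirectSum.decomposeLinearEquiv ℳ x) = _
  rw [h1, DirectSum.toModule_lof]
  split_ifs <;> simp

/-- the projection to slab `t` -/
noncomputable def pr (hI : DirectSum.IsInternal ℳ) (t : ℤ) : M →ₗ[A] M :=
  Classical.choose (exists_pr hI t)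

lemma pr_mem (hI : DirectSum.IsInternal ℳ) (t : ℤ) {a : Fin (k + 1) → ℤ} {x : M}
    (hx : x ∈ ℳ a) : pr hI t x = if a 0 = t then x else 0 :=
  Classical.choose_spec (exists_pr hI t) a x hx

lemma pr_idem (hI : DirectSum.IsInternal ℳ) (t : ℤ) (x : M) :
    pr hI t (pr hI t x) = pr hI t x := by
  refine ext_pieces hI (((pr hI t).comp (pr hI t)).toAddMonoidHom) ((pr hI t).toAddMonoidHom)
    ?_ x
  intro a x hx
  change pr hI t (pr hI t x) = pr hI t x
  rw [pr_mem hI t hx]
  split_ifs with h
  · rw [pr_mem hI t hx, if_pos h]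
  · simp

/-- nonzero at `χ` in slab `t` -/
def NZt {κ : Type} [Field κ] (χ : A →+* κ) (hI : DirectSum.IsInternal ℳ) (t : ℤ) : Prop :=
  ∃ x : M, pr hI t x = x ∧ ∀ s : A, χ s ≠ 0 → s • x ≠ 0

lemma exists_T0 [IsNoetherianRing A] [Module.Finite A M] (hI : DirectSum.IsInternal ℳ) :
    ∃ T : Finset ℤ, (∀ t, t ∉ T → ∀ x, pr hI t x = 0) ∧
      ∀ x, x = ∑ t ∈ T, pr hI t x := by
  classical
  have hfin : {a | ℳ a ≠ ⊥}.Finite :=
    WellFoundedGT.finite_ne_bot_of_iSupIndep hI.submodule_iSupIndep
  refine ⟨hfin.toFinset.image (fun a => a 0), ?_, ?_⟩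
  · intro t ht x
    refine ext_pieces hI ((pr hI t).toAddMonoidHom) 0 ?_ x
    intro a x hx
    change pr hI t x = 0
    rw [pr_mem hI t hx]
    split_ifs with h
    · by_contra hx0
      apply ht
      rw [Finset.mem_image]
      refine ⟨a, ?_, h⟩
      rw [Set.Finite.mem_toFinset, Set.mem_setOf_eq]
      intro hbot
      rw [hbot, Submodule.mem_bot] at hx
      exact hx0 hx
    · rfl
  · intro x
    have := ext_pieces hI (AddMonoidHom.id M)
      ((∑ t ∈ hfin.toFinset.image (fun a => a 0), pr hI t : M →ₗ[A] M).toAddMonoidHom) ?_ x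
    · have h2 : ((∑ t ∈ hfin.toFinset.image (fun a => a 0), pr hI t : M →ₗ[A] M).toAddMonoidHom) x
        = ∑ t ∈ hfin.toFinset.image (fun a => a 0), pr hI t x := by
        change (∑ t ∈ hfin.toFinset.image (fun a => a 0), pr hI t : M →ₗ[A] M) x = _
        rw [LinearMap.sum_apply]
      rw [← h2]; exact this
    · intro a x hx
      change x = (∑ t ∈ hfin.toFinset.image (fun a => a 0), pr hI t : M →ₗ[A] M) x
      rw [LinearMap.sum_apply]
      by_cases hx0 : x = 0
      · subst hx0; simp
      · have ha : a 0 ∈ hfin.toFinset.image (fun a => a 0) := by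
          rw [Finset.mem_image]
          refine ⟨a, ?_, rfl⟩
          rw [Set.Finite.mem_toFinset, Set.mem_setOf_eq]
          intro hbot
          rw [hbot, Submodule.mem_bot] at hx
          exact hx0 hx
        rw [Finset.sum_eq_single_of_mem (a 0) ha]
        · rw [pr_mem hI _ hx, if_pos rfl]
        · intro b _ hb
          rw [pr_mem hI _ hx, if_neg (fun h => hb h.symm)]

lemma kill {κ : Type} [Field κ] (χ : A →+* κ) [Module.Finite A M]
    (hI : DirectSum.IsInternal ℳ) (t : ℤ) (h : ¬ NZt χ hI t) :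
    ∃ s : A, χ s ≠ 0 ∧ ∀ x, s • pr hI t x = 0 := by
  classical
  have h1 : ∀ x : M, ∃ s : A, χ s ≠ 0 ∧ s • pr hI t x = 0 := by
    intro x
    by_contra hcon
    push_neg at hcon
    exact h ⟨pr hI t x, pr_idem hI t x, hcon⟩
  choose σ hσ1 hσ2 using h1
  obtain ⟨G, hG⟩ := (Module.Finite.fg_top : (⊤ : Submodule A M).FG)
  refine ⟨∏ g ∈ G, σ g, ?_, ?_⟩
  · rw [map_prod, Finset.prod_ne_zero_iff]
    exact fun g _ => hσ1 g
  · intro x
    have hx : x ∈ Submodule.span A (G : Set M) := by rw [hG]; trivial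
    induction hx using Submodule.span_induction with
    | mem g hg =>
      rw [← Finset.prod_erase_mul G σ hg, mul_smul, hσ2, smul_zero]
    | zero => simp
    | add x y _ _ hx hy => rw [map_add, smul_add, hx, hy, add_zero]
    | smul a x _ hx => rw [map_smul, smul_comm, hx, smul_zero]

lemma NZt_nonempty {κ : Type} [Field κ] (χ : A →+* κ) [IsNoetherianRing A] [Module.Finite A M]
    (hI : DirectSum.IsInternal ℳ) (hN : NZ χ M) : ∃ t, NZt χ hI t := by
  classical
  by_contra hcon
  push_neg at hcon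
  obtain ⟨T, -, hT⟩ := exists_T0 hI
  choose σ hσ1 hσ2 using fun t => kill χ hI t (hcon t)
  obtain ⟨x, hx⟩ := hN
  refine hx (∏ t ∈ T, σ t) ?_ ?_
  · rw [map_prod, Finset.prod_ne_zero_iff]
    exact fun g _ => hσ1 g
  · rw [hT x, Finset.smul_sum]
    refine Finset.sum_eq_zero fun t ht => ?_
    rw [← Finset.prod_erase_mul T σ ht, mul_smul, hσ2, smul_zero]

lemma NZt_finite {κ : Type} [Field κ] (χ : A →+* κ) [IsNoetherianRing A] [Module.Finite A M]
    (hI : DirectSum.IsInternal ℳ) : {t | NZt χ hI t}.Finite := by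
  classical
  obtain ⟨T, hT, -⟩ := exists_T0 hI
  refine T.finite_toSet.subset ?_
  intro t ht
  by_contra htT
  obtain ⟨x, hx1, hx2⟩ := ht
  apply hx2 1 (by simp)
  rw [one_smul, ← hx1]
  exact hT t htT x

end Proj

section Mod

variable {A M : Type} [CommRing A] [AddCommGroup M] [Module A M] {k : ℕ}
  [Module (MvPolynomial (Fin (k + 1)) A) M]
  [IsScalarTower A (MvPolynomial (Fin (k + 1)) A) M]

/-- the module structure on a stable submodule -/
@[reducible] noncomputable def modN (N : Submodule A M)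
    (h : ∀ (q : MvPolynomial (Fin k) A) (x : M), x ∈ N → rename Fin.succ q • x ∈ N) :
    Module (MvPolynomial (Fin k) A) N where
  smul q x := ⟨rename Fin.succ q • (x : M), h q x x.2⟩
  one_smul x := by
    apply Subtype.ext
    change rename Fin.succ (1 : MvPolynomial (Fin k) A) • (x : M) = x
    rw [map_one, one_smul]
  mul_smul p q x := by
    apply Subtype.ext
    change rename Fin.succ (p * q) • (x : M) = rename Fin.succ p • (rename Fin.succ q • (x : M))
    rw [map_mul, mul_smul]
  smul_zero q := by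
    apply Subtype.ext
    change rename Fin.succ q • (0 : M) = 0
    rw [smul_zero]
  smul_add q x y := by
    apply Subtype.ext
    change rename Fin.succ q • ((x : M) + y) = rename Fin.succ q • (x : M) + rename Fin.succ q • y
    rw [smul_add]
  add_smul p q x := by
    apply Subtype.ext
    change rename Fin.succ (p + q) • (x : M) = rename Fin.succ p • (x : M) + rename Fin.succ q • x
    rw [map_add, add_smul]
  zero_smul x := by
    apply Subtype.ext
    change rename Fin.succ (0 : MvPolynomial (Fin k) A) • (x : M) = 0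
    rw [map_zero, zero_smul]

lemma modN_tower (N : Submodule A M)
    (h : ∀ (q : MvPolynomial (Fin k) A) (x : M), x ∈ N → rename Fin.succ q • x ∈ N) :
    letI := modN N h
    IsScalarTower A (MvPolynomial (Fin k) A) N := by
  letI := modN N h
  constructor
  intro a q x
  apply Subtype.ext
  change rename Fin.succ (a • q) • (x : M) = a • (rename Fin.succ q • (x : M))
  rw [map_smul, smul_assoc]

variable {ℳ : (Fin (k + 1) → ℤ) → Submodule A M}

lemma C_smul' (a : A) (x : M) : (C a : MvPolynomial (Fin (k + 1)) A) • x = a • x := by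
  rw [← MvPolynomial.algebraMap_eq, algebraMap_smul]

lemma pr_X_succ (hI : DirectSum.IsInternal ℳ)
    (hX : ∀ j a x, x ∈ ℳ a →
      (MvPolynomial.X j : MvPolynomial (Fin (k + 1)) A) • x ∈ ℳ (a + Pi.single j 1))
    (t : ℤ) (j : Fin k) (x : M) :
    pr hI t ((MvPolynomial.X j.succ : MvPolynomial (Fin (k + 1)) A) • x) =
      (MvPolynomial.X j.succ : MvPolynomial (Fin (k + 1)) A) • pr hI t x := by
  refine ext_pieces hI
    (((pr hI t).toAddMonoidHom).comp
      (DistribSMul.toAddMonoidHom M (MvPolynomial.X j.succ : MvPolynomial (Fin (k + 1)) A)))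
    ((DistribSMul.toAddMonoidHom M (MvPolynomial.X j.succ : MvPolynomial (Fin (k + 1)) A)).comp
      ((pr hI t).toAddMonoidHom)) ?_ x
  intro a x hx
  change pr hI t ((MvPolynomial.X j.succ : MvPolynomial (Fin (k + 1)) A) • x) =
      (MvPolynomial.X j.succ : MvPolynomial (Fin (k + 1)) A) • pr hI t x
  have h0 : (a + Pi.single j.succ 1 : Fin (k + 1) → ℤ) 0 = a 0 := by
    rw [Pi.add_apply, Pi.single_eq_of_ne (Fin.succ_ne_zero j).symm, add_zero]
  rw [pr_mem hI t (hX j.succ a x hx), pr_mem hI t hx, h0]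
  split_ifs <;> simp

lemma pr_X_zero (hI : DirectSum.IsInternal ℳ)
    (hX : ∀ j a x, x ∈ ℳ a →
      (MvPolynomial.X j : MvPolynomial (Fin (k + 1)) A) • x ∈ ℳ (a + Pi.single j 1))
    (t : ℤ) (x : M) :
    pr hI (t + 1) ((MvPolynomial.X 0 : MvPolynomial (Fin (k + 1)) A) • x) =
      (MvPolynomial.X 0 : MvPolynomial (Fin (k + 1)) A) • pr hI t x := by
  refine ext_pieces hI
    (((pr hI (t + 1)).toAddMonoidHom).comp
      (DistribSMul.toAddMonoidHom M (MvPolynomial.X 0 : MvPolynomial (Fin (k + 1)) A)))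
    ((DistribSMul.toAddMonoidHom M (MvPolynomial.X 0 : MvPolynomial (Fin (k + 1)) A)).comp
      ((pr hI t).toAddMonoidHom)) ?_ x
  intro a x hx
  change pr hI (t + 1) ((MvPolynomial.X 0 : MvPolynomial (Fin (k + 1)) A) • x) =
      (MvPolynomial.X 0 : MvPolynomial (Fin (k + 1)) A) • pr hI t x
  have h0 : (a + Pi.single 0 1 : Fin (k + 1) → ℤ) 0 = a 0 + 1 := by
    rw [Pi.add_apply, Pi.single_eq_same]
  rw [pr_mem hI (t + 1) (hX 0 a x hx), pr_mem hI t hx, h0]
  by_cases h : a 0 = t
  · rw [if_pos (by rw [h]), if_pos h]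
  · rw [if_neg (fun h' => h (by omega)), if_neg h, smul_zero]

lemma pr_rename (hI : DirectSum.IsInternal ℳ)
    (hX : ∀ j a x, x ∈ ℳ a →
      (MvPolynomial.X j : MvPolynomial (Fin (k + 1)) A) • x ∈ ℳ (a + Pi.single j 1))
    (t : ℤ) (q : MvPolynomial (Fin k) A) (x : M) :
    pr hI t (rename Fin.succ q • x) = rename Fin.succ q • pr hI t x := by
  induction q using MvPolynomial.induction_on generalizing x with
  | C a => rw [MvPolynomial.rename_C, C_smul', C_smul', map_smul]
  | add p q hp hq => rw [map_add, add_smul, add_smul, map_add, hp, hq]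
  | mul_X p j hp =>
    rw [map_mul, MvPolynomial.rename_X, mul_smul, mul_smul, hp, pr_X_succ hI hX]

end Mod

theorem main : GRCUT := by
  intro A κ _ _ _ χ k M _ _ _ _ _ ℳ hI hX hNZ top
  classical
  -- the choice of the slab
  obtain ⟨t₀, ht₀, t₁, ht₁, ht₁'⟩ : ∃ t₀ : ℤ, NZt χ hI t₀ ∧ ∃ t₁, ¬ NZt χ hI t₁ ∧
      ((top = false → t₀ = t₁ + 1) ∧ (top = true → t₁ = t₀ + 1)) := by
    have hfin := NZt_finite χ hI
    have hne : {t | NZt χ hI t}.Nonempty := NZt_nonempty χ hI hNZ
    cases top with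
    | false =>
      obtain ⟨t, ht, hmin⟩ := Set.exists_min_image _ (fun t : ℤ => t) hfin hne
      refine ⟨t, ht, t - 1, ?_, ?_, ?_⟩
      · intro h
        have := hmin (t - 1) h
        omega
      · intro _; ring
      · intro h; cases h
    | true =>
      obtain ⟨t, ht, hmax⟩ := Set.exists_max_image _ (fun t : ℤ => t) hfin hne
      refine ⟨t, ht, t + 1, ?_, ?_, ?_⟩
      · intro h
        have := hmax (t + 1) h
        omega
      · intro h; cases h
      · intro _; rfl
  obtain ⟨s, hs, hkill⟩ := kill χ hI t₁ ht₁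
  -- the slab
  let N : Submodule A M := LinearMap.eqLocus (pr hI t₀) LinearMap.id
  have hNmem : ∀ x, x ∈ N ↔ pr hI t₀ x = x := fun x => Iff.rfl
  have hst : ∀ (q : MvPolynomial (Fin k) A) (x : M), x ∈ N → rename Fin.succ q • x ∈ N := by
    intro q x hx
    rw [hNmem] at hx ⊢
    rw [pr_rename hI hX, hx]
  letI iN : Module (MvPolynomial (Fin k) A) N := modN N hst
  haveI tN : IsScalarTower A (MvPolynomial (Fin k) A) N := modN_tower N hst
  have hsm : ∀ (q : MvPolynomial (Fin k) A) (x : N),
      ((q • x : N) : M) = rename Fin.succ q • (x : M) := fun _ _ => rfl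
  let prN : M →ₗ[A] N := (pr hI t₀).codRestrict N (fun x => pr_idem hI t₀ x)
  have hprN : ∀ x, ((prN x : N) : M) = pr hI t₀ x := fun _ => rfl
  have hprN' : ∀ x : N, prN (x : M) = x := fun x => Subtype.ext ((hNmem _).1 x.2)
  haveI : SMulCommClass A (MvPolynomial (Fin (k + 1)) A) M :=
    IsScalarTower.to_smulCommClass
  haveI : SMulCommClass A (MvPolynomial (Fin k) A) N :=
    IsScalarTower.to_smulCommClass
  let 𝒩 : (Fin k → ℤ) → Submodule A N := fun b =>
    (ℳ (Fin.cons t₀ b : Fin (k + 1) → ℤ)).comap N.subtype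
  have h𝒩 : ∀ b (x : N), x ∈ 𝒩 b ↔ (x : M) ∈ ℳ (Fin.cons t₀ b : Fin (k + 1) → ℤ) :=
    fun _ _ => Iff.rfl
  have hint : DirectSum.IsInternal 𝒩 := by
    rw [DirectSum.isInternal_submodule_iff_iSupIndep_and_iSup_eq_top]
    constructor
    · intro b
      rw [Submodule.disjoint_def]
      intro x hx1 hx2
      have hd := hI.submodule_iSupIndep (Fin.cons t₀ b : Fin (k + 1) → ℤ)
      rw [Submodule.disjoint_def] at hd
      apply Subtype.ext
      refine hd _ hx1 ?_
      have hx3 : N.subtype x ∈ (⨆ j, ⨆ (_ : j ≠ b), 𝒩 j).map N.subtype :=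
        Submodule.mem_map_of_mem hx2
      have hle : (⨆ j, ⨆ (_ : j ≠ b), 𝒩 j).map N.subtype ≤
          ⨆ a, ⨆ (_ : a ≠ (Fin.cons t₀ b : Fin (k + 1) → ℤ)), ℳ a := by
        rw [Submodule.map_iSup]
        refine iSup_le fun j => ?_
        rw [Submodule.map_iSup]
        refine iSup_le fun hj => ?_
        refine le_trans ?_ (le_iSup₂_of_le (Fin.cons t₀ j : Fin (k + 1) → ℤ) ?_ le_rfl)
        · exact Submodule.map_comap_le _ _
        · intro h
          exact hj (Fin.cons_injective2 h).2
      exact hle hx3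
    · rw [eq_top_iff]
      intro x _
      have hx : (x : M) ∈ ⨆ a, ℳ a := by
        rw [hI.submodule_iSup_eq_top]; trivial
      have h1 : prN (x : M) ∈ (⨆ a, ℳ a).map prN := Submodule.mem_map_of_mem hx
      rw [hprN', Submodule.map_iSup] at h1
      have hle : (⨆ a, (ℳ a).map prN) ≤ ⨆ b, 𝒩 b := by
        refine iSup_le fun a => ?_
        rintro _ ⟨y, hy, rfl⟩
        by_cases ha : a 0 = t₀
        · refine Submodule.mem_iSup_of_mem (Fin.tail a) ?_
          rw [h𝒩, hprN, pr_mem hI t₀ hy, if_pos ha, ← ha, Fin.cons_self_tail]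
          exact hy
        · have : prN y = 0 := by
            apply Subtype.ext
            rw [hprN, pr_mem hI t₀ hy, if_neg ha]
            rfl
          rw [this]
          exact Submodule.zero_mem _
      exact hle h1
  have hgr : ∀ j a x, x ∈ 𝒩 a →
      (MvPolynomial.X j : MvPolynomial (Fin k) A) • x ∈ 𝒩 (a + Pi.single j 1) := by
    intro j b x hx
    rw [h𝒩] at hx ⊢
    rw [hsm, MvPolynomial.rename_X]
    have h1 := hX j.succ _ _ hx
    have h2 : (Fin.cons t₀ b + Pi.single j.succ 1 : Fin (k + 1) → ℤ) =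
        Fin.cons t₀ (b + Pi.single j 1) := by
      funext i
      refine Fin.cases ?_ (fun i => ?_) i
      · rw [Pi.add_apply, Fin.cons_zero, Fin.cons_zero,
          Pi.single_eq_of_ne (Fin.succ_ne_zero j).symm, add_zero]
      · rw [Pi.add_apply, Fin.cons_succ, Fin.cons_succ, Pi.add_apply]
        congr 1
        by_cases hij : i = j
        · subst hij; rw [Pi.single_eq_same, Pi.single_eq_same]
        · rw [Pi.single_eq_of_ne hij, Pi.single_eq_of_ne (fun h => hij (Fin.succ_injective _ h))]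
    rw [h2] at h1
    exact h1
  have hNZN : NZ χ N := by
    obtain ⟨x, hx1, hx2⟩ := ht₀
    refine ⟨⟨x, hx1⟩, fun r hr h0 => hx2 r hr ?_⟩
    exact congrArg Subtype.val h0
  cases top with
  | false =>
    have ht : t₀ = t₁ + 1 := ht₁'.1 rfl
    refine ⟨N, iN, tN, 𝒩, s • prN, N.subtype, s, hint, hgr, hNZN, hs, ?_, ?_, ?_, ?_, ?_⟩
    · intro x
      rw [LinearMap.smul_apply, Submodule.subtype_apply, hprN']
    · intro q x
      exact hsm q x
    · intro q x
      rw [LinearMap.smul_apply, LinearMap.smul_apply, smul_comm q s]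
      congr 1
      apply Subtype.ext
      rw [hsm, hprN, hprN, pr_rename hI hX]
    · intro _ x
      rw [LinearMap.smul_apply]
      apply Subtype.ext
      rw [Submodule.coe_smul, hprN, ht, pr_X_zero hI hX, smul_comm, hkill, smul_zero]
      rfl
    · intro h; cases h
  | true =>
    have ht : t₁ = t₀ + 1 := ht₁'.2 rfl
    refine ⟨N, iN, tN, 𝒩, prN, s • N.subtype, s, hint, hgr, hNZN, hs, ?_, ?_, ?_, ?_, ?_⟩
    · intro x
      rw [LinearMap.smul_apply, Submodule.subtype_apply, map_smul, hprN']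
    · intro q x
      rw [LinearMap.smul_apply, LinearMap.smul_apply, Submodule.subtype_apply,
        Submodule.subtype_apply, hsm, smul_comm]
    · intro q x
      apply Subtype.ext
      rw [hsm, hprN, hprN, pr_rename hI hX]
    · intro h; cases h
    · intro _ x
      rw [LinearMap.smul_apply, Submodule.subtype_apply, smul_comm, ← (hNmem _).1 x.2,
        ← pr_X_zero hI hX, ← ht, hkill]

end Pool.Agent.W402.BEGRCUT
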