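import Mathlib
import Pool.Agent.W988.RA.Defs
import Pool.Agent.BSheet.L_santalo

/-!
Project RA (owner helper988), part NVP, by helper402: properties of the norm `NV` and the Santalo
inequality for its unit ball.
-/

set_option autoImplicit false

open MeasureTheory
open scoped ENNReal BigOperators

namespace Pool.Agent.W402.RA_NVP

open Pool.Agent.W988.RA

theorem wv_sq {n m : ℕ} (V : AR n m) (hn : 0 < n) (hV : ∀ p, |V p| ≤ 1 / Real.sqrt n)
    (i : Fin n ⊕ Fin m) : ∑ k, wv V i k ^ 2 ≤ 1 := by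
  rcases i with j | i
  · simp only [wv]
    rw [Finset.sum_eq_single j]
    · simp
    · intro b _ hb
      simp [hb]
    · simp
  · simp only [wv]
    have hn' : (0 : ℝ) < n := by exact_mod_cast hn
    calc ∑ k, V (k, i) ^ 2 ≤ ∑ _k : Fin n, 1 / (n : ℝ) := by
          refine Finset.sum_le_sum fun k _ => ?_
          have h := hV (k, i)
          have h2 : V (k, i) ^ 2 ≤ (1 / Real.sqrt n) ^ 2 := by
            rw [← sq_abs (V (k, i))]
            exact pow_le_pow_left₀ (abs_nonneg _) h 2
          refine le_trans h2 (le_of_eq ?_)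
          rw [div_pow, one_pow, Real.sq_sqrt hn'.le]
      _ = 1 := by
          rw [Finset.sum_const, Finset.card_univ, Fintype.card_fin, nsmul_eq_mul]
          field_simp

theorem zero_mem {n m : ℕ} (V : AR n m) : (0 : Fin n → ℝ) ∈ PV V := by
  intro i
  simp

theorem neg_mem {n m : ℕ} (V : AR n m) {y : Fin n → ℝ} (hy : y ∈ PV V) : -y ∈ PV V := by
  intro i
  have := hy i
  have e : ∑ k, (-y) k * wv V i k = -∑ k, y k * wv V i k := by
    rw [← Finset.sum_neg_distrib]
    refine Finset.sum_congr rfl fun k _ => ?_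
    simp
  rw [e, abs_neg]
  exact this

theorem ball_mem {n m : ℕ} (V : AR n m) (hn : 0 < n) (hV : ∀ p, |V p| ≤ 1 / Real.sqrt n)
    {y : Fin n → ℝ} (hy : ∑ k, y k ^ 2 ≤ 1) : y ∈ PV V := by
  intro i
  have h := Finset.sum_mul_sq_le_sq_mul_sq Finset.univ y (wv V i)
  have h2 := wv_sq V hn hV i
  have h0 : 0 ≤ ∑ k, y k ^ 2 := Finset.sum_nonneg fun k _ => sq_nonneg _
  have h3 : (∑ k, y k * wv V i k) ^ 2 ≤ 1 := by
    refine le_trans h ?_
    calc (∑ k, y k ^ 2) * ∑ k, wv V i k ^ 2 ≤ 1 * 1 :=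
          mul_le_mul hy h2 (Finset.sum_nonneg fun k _ => sq_nonneg _) zero_le_one
      _ = 1 := one_mul 1
  exact (sq_le_one_iff_abs_le_one _).1 h3

theorem coord_le {n m : ℕ} (V : AR n m) {y : Fin n → ℝ} (hy : y ∈ PV V) (j : Fin n) :
    |y j| ≤ 1 := by
  have h := hy (Sum.inl j)
  simp only [wv] at h
  rw [Finset.sum_eq_single j] at h
  · simpa using h
  · intro b _ hb
    simp [hb]
  · simp

theorem bdd {n m : ℕ} (V : AR n m) (x : Fin n → ℝ) :
    BddAbove ((fun y : Fin n → ℝ => ∑ k, x k * y k) '' PV V) := by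
  refine ⟨∑ k, |x k|, ?_⟩
  rintro _ ⟨y, hy, rfl⟩
  refine Finset.sum_le_sum fun k _ => ?_
  calc x k * y k ≤ |x k * y k| := le_abs_self _
    _ = |x k| * |y k| := abs_mul _ _
    _ ≤ |x k| * 1 := mul_le_mul_of_nonneg_left (coord_le V hy k) (abs_nonneg _)
    _ = |x k| := mul_one _

theorem le_NV {n m : ℕ} (V : AR n m) (x : Fin n → ℝ) {y : Fin n → ℝ} (hy : y ∈ PV V) :
    ∑ k, x k * y k ≤ NV V x := le_csSup (bdd V x) ⟨y, hy, rfl⟩

theorem abs_le_NV {n m : ℕ} (V : AR n m) (x : Fin n → ℝ) {y : Fin n → ℝ} (hy : y ∈ PV V) :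
    |∑ k, x k * y k| ≤ NV V x := by
  rw [abs_le]
  constructor
  · have h := le_NV V x (neg_mem V hy)
    have e : ∑ k, x k * (-y) k = -∑ k, x k * y k := by
      rw [← Finset.sum_neg_distrib]
      refine Finset.sum_congr rfl fun k _ => ?_
      simp
    rw [e] at h
    linarith
  · exact le_NV V x hy

theorem NV_le {n m : ℕ} (V : AR n m) (x : Fin n → ℝ) {c : ℝ}
    (h : ∀ y ∈ PV V, ∑ k, x k * y k ≤ c) : NV V x ≤ c := by
  have hne : (PV V).Nonempty := ⟨0, zero_mem V⟩
  apply csSup_le (hne.image _)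
  rintro _ ⟨y, hy, rfl⟩
  exact h y hy

theorem result : S_NVP := by
  intro n m V hn hV
  have h1 : ∀ x, Real.sqrt (∑ k, x k ^ 2) ≤ NV V x := by
    intro x
    have hs0 : 0 ≤ ∑ k, x k ^ 2 := Finset.sum_nonneg fun k _ => sq_nonneg _
    set r := Real.sqrt (∑ k, x k ^ 2) with hr
    have hr2 : r ^ 2 = ∑ k, x k ^ 2 := Real.sq_sqrt hs0
    rcases (Real.sqrt_nonneg (∑ k, x k ^ 2)).eq_or_lt with h0 | hpos
    · rw [← hr] at h0
      rw [← h0]
      have := le_NV V x (zero_mem V)
      simpa using this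
    · rw [← hr] at hpos
      have hy : (fun k => x k / r) ∈ PV V := by
        apply ball_mem V hn hV
        have : ∑ k, (x k / r) ^ 2 = (∑ k, x k ^ 2) / r ^ 2 := by
          rw [Finset.sum_div]
          refine Finset.sum_congr rfl fun k _ => ?_
          rw [div_pow]
        rw [this, ← hr2]
        rw [div_self (by positivity)]
      have h := le_NV V x hy
      have e : ∑ k, x k * (x k / r) = r := by
        have : ∑ k, x k * (x k / r) = (∑ k, x k ^ 2) / r := by
          rw [Finset.sum_div]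
          refine Finset.sum_congr rfl fun k _ => ?_
          ring
        rw [this, ← hr2]
        field_simp
      rw [e] at h
      exact h
  have hnn : ∀ x, 0 ≤ NV V x := fun x => le_trans (Real.sqrt_nonneg _) (h1 x)
  have h2' : ∀ (c : ℝ) (x : Fin n → ℝ), NV V (c • x) ≤ |c| * NV V x := by
    intro c x
    apply NV_le
    intro y hy
    have e : ∑ k, (c • x) k * y k = c * ∑ k, x k * y k := by
      rw [Finset.mul_sum]
      refine Finset.sum_congr rfl fun k _ => ?_
      simp [mul_assoc]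
    rw [e]
    calc c * ∑ k, x k * y k ≤ |c * ∑ k, x k * y k| := le_abs_self _
      _ = |c| * |∑ k, x k * y k| := abs_mul _ _
      _ ≤ |c| * NV V x := mul_le_mul_of_nonneg_left (abs_le_NV V x hy) (abs_nonneg _)
  have h2 : ∀ (c : ℝ) (x : Fin n → ℝ), NV V (c • x) = |c| * NV V x := by
    intro c x
    apply le_antisymm (h2' c x)
    rcases eq_or_ne c 0 with rfl | hc
    · rw [abs_zero, zero_mul]
      exact hnn _
    · have h := h2' c⁻¹ (c • x)
      rw [smul_smul, inv_mul_cancel₀ hc, one_smul, abs_inv] at h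
      have hc' : 0 < |c| := abs_pos.2 hc
      calc |c| * NV V x ≤ |c| * (|c|⁻¹ * NV V (c • x)) := mul_le_mul_of_nonneg_left h hc'.le
        _ = NV V (c • x) := by rw [← mul_assoc, mul_inv_cancel₀ hc'.ne', one_mul]
  have h3 : ∀ x y, NV V (x + y) ≤ NV V x + NV V y := by
    intro x x'
    apply NV_le
    intro y hy
    have e : ∑ k, (x + x') k * y k = ∑ k, x k * y k + ∑ k, x' k * y k := by
      rw [← Finset.sum_add_distrib]
      refine Finset.sum_congr rfl fun k _ => ?_
      simp [add_mul]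
    rw [e]
    exact add_le_add (le_NV V x hy) (le_NV V x' hy)
  have h4 : ∀ i, NV V (wv V i) ≤ 1 := by
    intro i
    apply NV_le
    intro y hy
    have h := hy i
    have e : ∑ k, wv V i k * y k = ∑ k, y k * wv V i k :=
      Finset.sum_congr rfl fun k _ => mul_comm _ _
    rw [e]
    exact le_trans (le_abs_self _) h
  refine ⟨h1, h2, h3, h4, ?_⟩
  -- the polar body is compact
  have hPclosed : IsClosed (PV V) := by
    have : PV V = ⋂ i, {y : Fin n → ℝ | |∑ k, y k * wv V i k| ≤ 1} := by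
      ext y
      simp [PV]
    rw [this]
    refine isClosed_iInter fun i => ?_
    exact isClosed_le (by fun_prop) continuous_const
  have hPcompact : IsCompact (PV V) := by
    refine IsCompact.of_isClosed_subset (isCompact_univ_pi fun _ : Fin n =>
      (isCompact_Icc : IsCompact (Set.Icc (-1 : ℝ) 1))) hPclosed ?_
    intro y hy j _
    exact abs_le.1 (coord_le V hy j)
  have hKeq : {x : Fin n → ℝ | NV V x ≤ 1} = ⋂ y ∈ PV V, {x : Fin n → ℝ | ∑ k, x k * y k ≤ 1} := by
    ext x
    simp only [Set.mem_iInter]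
    constructor
    · intro hx y hy
      exact le_trans (le_NV V x hy) hx
    · intro hx
      exact NV_le V x fun y hy => hx y hy
  have hKclosed : IsClosed {x : Fin n → ℝ | NV V x ≤ 1} := by
    rw [hKeq]
    refine isClosed_biInter fun y _ => ?_
    exact isClosed_le (by fun_prop) continuous_const
  have hKcompact : IsCompact {x : Fin n → ℝ | NV V x ≤ 1} := by
    refine IsCompact.of_isClosed_subset (isCompact_univ_pi fun _ : Fin n =>
      (isCompact_Icc : IsCompact (Set.Icc (-1 : ℝ) 1))) hKclosed ?_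
    intro x hx j _
    have hx' : NV V x ≤ 1 := hx
    have h5 : Real.sqrt (∑ k, x k ^ 2) ≤ 1 := le_trans (h1 x) hx'
    have h6 : ∑ k, x k ^ 2 ≤ 1 := by
      have h9 := (Real.sqrt_le_left (zero_le_one' ℝ)).1 h5
      simpa using h9
    have h7 : x j ^ 2 ≤ 1 :=
      le_trans (Finset.single_le_sum (f := fun k => x k ^ 2) (fun k _ => sq_nonneg _)
        (Finset.mem_univ j)) h6
    exact abs_le.1 ((sq_le_one_iff_abs_le_one _).1 h7)
  have hcard : 0 < Fintype.card (Fin n) := by simpa using hn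
  have hs := BSheet.santalo hcard {x : Fin n → ℝ | NV V x ≤ 1} (PV V) hKcompact hPcompact
    (by
      intro x hx
      have hx' : NV V x ≤ 1 := hx
      have h8 := h2 (-1) x
      rw [neg_one_smul, abs_neg, abs_one, one_mul] at h8
      show NV V (-x) ≤ 1
      rw [h8]
      exact hx')
    (fun y hy => neg_mem V hy)
    (by
      intro x hx y hy
      exact le_trans (le_NV V x hy) hx)
  rw [Fintype.card_fin] at hs
  refine le_trans ?_ hs
  have hmono : volume {x : Fin n → ℝ | NV V x < 1} ≤ volume {x : Fin n → ℝ | NV V x ≤ 1} := by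
    apply measure_mono
    intro x hx
    have hx' : NV V x < 1 := hx
    exact hx'.le
  exact mul_le_mul' hmono le_rfl

end Pool.Agent.W402.RA_NVP
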